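import Pool.Agent.Helper16.SD.GoalsD

set_option autoImplicit false

namespace Pool.Agent.Helper36.SD.K_XQ

open Module

theorem kxq :
  ∀ (p : ℕ) [Fact p.Prime] (O : Type) [CommRing O] [Algebra ℤ_[p] O] [Module.Finite ℤ_[p] O]
    [Module.Free ℤ_[p] O] (k : ℕ),
    (∀ x : O ⧸ Ideal.span {(p : O) ^ k}, p ^ k • x = 0) ∧
    ∀ x : O ⧸ Ideal.span {(p : O) ^ k}, x ≠ 0 →
      ∃ l : (O ⧸ Ideal.span {(p : O) ^ k}) →+ ZMod (p ^ k), l x ≠ 0 := by
  intro p _ O _ _ _ _ k
  have hsm : ∀ z : O, (p : O) ^ k * z = ((p : ℤ_[p]) ^ k) • z := by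
    intro z
    rw [Algebra.smul_def, map_pow, map_natCast]
  constructor
  · intro x
    obtain ⟨y, rfl⟩ := Ideal.Quotient.mk_surjective x
    rw [← map_nsmul, Ideal.Quotient.eq_zero_iff_mem, nsmul_eq_mul, Nat.cast_pow]
    exact Ideal.mul_mem_right _ _ (Ideal.mem_span_singleton_self _)
  · intro x hx
    obtain ⟨y, rfl⟩ := Ideal.Quotient.mk_surjective x
    by_contra hcon
    push Not at hcon
    apply hx
    rw [Ideal.Quotient.eq_zero_iff_mem]
    obtain ⟨b⟩ : Nonempty (Basis (Module.Free.ChooseBasisIndex ℤ_[p] O) ℤ_[p] O) :=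
      ⟨Module.Free.chooseBasis ℤ_[p] O⟩
    have hall : ∀ i, ∃ c, b.repr y i = (p : ℤ_[p]) ^ k * c := by
      intro i
      let f : O →+ ZMod (p ^ k) :=
        (PadicInt.toZModPow k : ℤ_[p] →+* ZMod (p ^ k)).toAddMonoidHom.comp
          (b.coord i).toAddMonoidHom
      have hf : ∀ z ∈ (Ideal.span {(p : O) ^ k}).toAddSubgroup, f z = 0 := by
        intro z hz
        obtain ⟨w, rfl⟩ := Ideal.mem_span_singleton'.1 hz
        show PadicInt.toZModPow k (b.coord i (w * (p : O) ^ k)) = 0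
        rw [mul_comm, hsm, map_smul, smul_eq_mul, map_mul, map_pow, map_natCast]
        have : ((p : ZMod (p ^ k)) ^ k) = 0 := by
          rw [← Nat.cast_pow]
          exact ZMod.natCast_self _
        rw [this, zero_mul]
      have h1 := hcon (QuotientAddGroup.lift (Ideal.span {(p : O) ^ k}).toAddSubgroup f hf)
      have h2 : PadicInt.toZModPow k (b.coord i y) = 0 := h1
      have h3 : b.coord i y ∈ RingHom.ker (PadicInt.toZModPow k : ℤ_[p] →+* ZMod (p ^ k)) := h2
      rw [PadicInt.ker_toZModPow, Ideal.mem_span_singleton'] at h3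
      obtain ⟨c, hc⟩ := h3
      exact ⟨c, by rw [mul_comm, hc]; rfl⟩
    choose c hc using hall
    rw [← b.sum_repr y]
    apply Ideal.sum_mem
    intro i _
    rw [hc i, mul_smul, ← hsm]
    exact Ideal.mul_mem_right _ _ (Ideal.mem_span_singleton_self _)

theorem t : Pool.Agent.Helper16.SD.K_XQ := by
  intro p _ O _ _ _ _ k
  exact kxq p O k

end Pool.Agent.Helper36.SD.K_XQ
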