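import Pool.Agent.Helper16.SD.GoalsX
import Pool.Agent.Helper57.TH.CLS
import Pool.Agent.Helper57.TH.TEN1
import Pool.Agent.Helper59.TH.TEN2

/-!
# Project SD (MP_fc6b1e_nt): goal X_A
-/

set_option autoImplicit false

namespace Pool.Agent.Helper36.SD.X_A

open Module TensorProduct
open Pool.Agent.Helper51.SigLeo
open Pool.Agent.Helper17.TH (exO tm Wsub Acts tm_smul)
open Pool.Agent.Helper16.SD (zp)

/-- Goal X_A. -/
theorem t : Pool.Agent.Helper16.SD.X_A := by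
  intro p _ A _ _ G _ act χ η gt ℓs O _ _ _ j c u m H CG ι _ hb hcyc g₀ hg₀ hgen s hs1 hs2
  obtain ⟨b⟩ := hb
  refine Pool.Agent.Helper17.TH.ins_a j H.acts Pool.Agent.Helper57.TH.s_ten1
    Pool.Agent.Helper59.TH.s_ten2 Pool.Agent.Helper57.TH.s_cls H.inj c H.hc CG b hcyc g₀ hg₀ hgen
    s ?_ hs2
  intro x hx
  obtain ⟨⟨z, hz⟩, hxW, w, ⟨zw, hzw⟩, hwW, hw⟩ := hs1 x hx
  obtain ⟨r, hr⟩ := H.u_one gt
  have hzr : zp p (u gt : ℤ_[p]ˣ) = 1 + (p : ℂ_[p]) * zp p r := by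
    have h1 : ((u gt : ℤ_[p]ˣ) : ℤ_[p]) = 1 + (p : ℤ_[p]) * r := by rw [← hr]; ring
    rw [h1, map_add, map_one, map_mul, map_natCast]
  have hj : j (algebraMap ℤ_[p] O r) = zp p r := H.alg r
  refine ⟨⟨z, hz⟩, hxW, w + (((χ gt : ℂ_[p]ˣ) : ℂ_[p]) * zp p r) • x,
    ⟨zw + (c gt * algebraMap ℤ_[p] O r) • z, ?_⟩, ?_, ?_⟩
  · rw [map_add, tm_smul, ← hzw, ← hz, map_mul, H.hc, hj]
  · exact add_mem hwW (Submodule.smul_mem _ _ hxW)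
  · have h2 : extEnd (act gt) x = (((χ gt : ℂ_[p]ˣ) : ℂ_[p]) * zp p (u gt : ℤ_[p]ˣ)) • x +
        p • w := by
      rw [← hw]
      abel
    rw [h2, hzr, ← Nat.cast_smul_eq_nsmul ℂ_[p] p w, ← Nat.cast_smul_eq_nsmul ℂ_[p] p (w + _)]
    module

end Pool.Agent.Helper36.SD.X_A
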